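import Pool.Agent.E8helper34.M4.Loc
import Pool.Agent.E8helper34.MR.Zz

set_option autoImplicit false

/-! Actions of `Mod_g` on modules over commutative rings with fewer than `4 * binom (g - 5) 2`
generators, `2 g - 2` acting injectively or surjectively: the kernels are exactly congruence
subgroups. -/

namespace Pool.Agent.Results.MP_59b15d_al.ActionsOnModulesH34

open Pool.Agent.H29R2.MG Pool.Agent.TH35.MG Pool.Agent.R665.MGR Pool.Agent.E8helper34.MR Module

universe u v

/-- the elements of the surface group whose homology class is divisible by `m`: the kernel of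
`π_1(S) → H_1(S; ℤ/m)` (for `m = 0` the commutator subgroup, with quotient `H_1(S; ℤ)`) -/
def Level (g m : ℕ) : Subgroup (SurfaceGroup g) where
  carrier := {x | ∀ j, (m : ℤ) ∣ homologyClass x j}
  one_mem' := by
    intro j
    rw [hc_one]
    simp
  mul_mem' := by
    intro x y hx hy j
    rw [hc_mul]
    exact dvd_add (hx j) (hy j)
  inv_mem' := by
    intro x hx j
    rw [hc_inv]
    exact (dvd_neg.2 (hx j))

/-- `φ` acts on `π_1(S) / Γ` as an inner automorphism -/
def InnerMod {g : ℕ} (Γ : Subgroup (SurfaceGroup g)) (φ : MulAut (SurfaceGroup g)) : Prop :=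
  ∃ y : SurfaceGroup g, ∀ x : SurfaceGroup g, φ x * (y * x * y⁻¹)⁻¹ ∈ Γ

/-- the homology class modulo `m` -/
def modM (g m : ℕ) : SurfaceGroup g →* Multiplicative (Fin g ⊕ Fin g → ZMod m) where
  toFun x := Multiplicative.ofAdd (fun j => ((homologyClass x j : ℤ) : ZMod m))
  map_one' := by
    rw [hc_one]
    simp
    rfl
  map_mul' x y := by
    rw [hc_mul]
    apply Multiplicative.toAdd.injective
    funext j
    simp

theorem level_eq (g m : ℕ) : Level g m = (modM g m).ker := by
  ext x
  rw [MonoidHom.mem_ker]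
  constructor
  · intro h
    apply Multiplicative.toAdd.injective
    funext j
    have := (ZMod.intCast_zmod_eq_zero_iff_dvd (homologyClass x j) m).2 (by exact_mod_cast h j)
    simpa [modM] using this
  · intro h j
    have h1 := congrArg Multiplicative.toAdd h
    have h2 := congrFun h1 j
    have h3 : ((homologyClass x j : ℤ) : ZMod m) = 0 := by simpa [modM] using h2
    exact_mod_cast (ZMod.intCast_zmod_eq_zero_iff_dvd (homologyClass x j) m).1 h3

/-- homomorphisms from the surface group to `ℤ^{2g}` are determined by the homology class -/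
theorem linear {g : ℕ} (ψ : SurfaceGroup g →* Multiplicative (Fin g ⊕ Fin g → ℤ))
    (x : SurfaceGroup g) :
    Multiplicative.toAdd (ψ x) = ∑ j, homologyClass x j • Multiplicative.toAdd (ψ (gen j)) := by
  let L : SurfaceGroup g →* Multiplicative (Fin g ⊕ Fin g → ℤ) :=
    { toFun := fun x => Multiplicative.ofAdd
        (∑ j, homologyClass x j • Multiplicative.toAdd (ψ (gen j)))
      map_one' := by
        rw [hc_one]
        simp
      map_mul' := by
        intro x y
        rw [hc_mul, ← ofAdd_add, ← Finset.sum_add_distrib]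
        congr 1
        refine Finset.sum_congr rfl fun j _ => ?_
        rw [Pi.add_apply, add_smul] }
  have hL : ψ = L := by
    apply surface_ext
    intro i
    show ψ (gen i) = Multiplicative.ofAdd _
    rw [hc_gen, Finset.sum_eq_single i]
    · simp
    · intro j _ hj
      rw [Pi.single_eq_of_ne hj, zero_smul]
    · intro h
      exact absurd (Finset.mem_univ i) h
  have h := DFunLike.congr_fun hL x
  rw [h]
  rfl

theorem level_char (g m : ℕ) : (Level g m).Characteristic := by
  rw [Subgroup.characteristic_iff_le_comap]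
  intro φ x hx
  rw [Subgroup.mem_comap]
  intro j
  have h := linear ((homologyHom g).comp φ.toMonoidHom) x
  have h1 : homologyClass (φ x) = ∑ i, homologyClass x i •
      Multiplicative.toAdd (((homologyHom g).comp φ.toMonoidHom) (gen i)) := h
  show (m : ℤ) ∣ homologyClass (φ x) j
  rw [h1, Finset.sum_apply]
  refine Finset.dvd_sum fun i _ => ?_
  rw [Pi.smul_apply, smul_eq_mul]
  exact (hx i).mul_right _

theorem level_fin (g m : ℕ) (hm : m ≠ 0) : (Level g m).FiniteIndex := by
  have : NeZero m := ⟨hm⟩
  rw [level_eq]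
  infer_instance

theorem dvd_of_inner {g m : ℕ} {φ : MulAut (SurfaceGroup g)} (h : InnerMod (Level g m) φ)
    (x : SurfaceGroup g) (j : Fin g ⊕ Fin g) :
    (m : ℤ) ∣ homologyClass (φ x) j - homologyClass x j := by
  obtain ⟨y, hy⟩ := h
  have h1 := hy x j
  rw [hc_mul, hc_inv, hc_mul, hc_mul, hc_inv] at h1
  have h2 : (homologyClass (φ x) + -(homologyClass y + homologyClass x + -homologyClass y)) j =
      homologyClass (φ x) j - homologyClass x j := by
    simp only [Pi.add_apply, Pi.neg_apply]
    ring
  rwa [h2] at h1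

theorem inner_of_dvd {g m : ℕ} {φ : MulAut (SurfaceGroup g)}
    (h : ∀ (x : SurfaceGroup g) (j : Fin g ⊕ Fin g),
      (m : ℤ) ∣ homologyClass (φ x) j - homologyClass x j) : InnerMod (Level g m) φ := by
  refine ⟨1, fun x j => ?_⟩
  rw [hc_mul, hc_inv, one_mul, inv_one, mul_one, Pi.add_apply, Pi.neg_apply]
  exact h x j

/-- the matrix condition and the condition on `π_1(S) / Γ` -/
theorem matrix_iff {g m : ℕ} (φ : orientedAut g) :
    (∀ k l, (m : ℤ) ∣ (Ho g φ - 1) k l) ↔
      InnerMod (Level g m) (φ : MulAut (SurfaceGroup g)) := by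
  have hcol : ∀ k l, (Ho g φ - 1) k l =
      homologyClass ((φ : MulAut (SurfaceGroup g)) (gen l)) k -
        homologyClass (gen l : SurfaceGroup g) k := by
    intro k l
    rw [Matrix.sub_apply, hc_gen, Matrix.one_apply]
    congr 1
    by_cases h : k = l
    · subst h; simp
    · rw [if_neg h, Pi.single_eq_of_ne h]
  constructor
  · intro h
    apply inner_of_dvd
    intro x j
    have h1 := Ho_vec φ x
    have h2 : homologyClass ((φ : MulAut (SurfaceGroup g)) x) j - homologyClass x j =
        ∑ l, (Ho g φ - 1) j l * homologyClass x l := by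
      have h3 : ∑ l, (Ho g φ - 1) j l * homologyClass x l =
          (Matrix.mulVec (Ho g φ - 1) (homologyClass x)) j := rfl
      rw [h3, Matrix.sub_mulVec, Matrix.one_mulVec, ← h1]
      rfl
    rw [h2]
    exact Finset.dvd_sum fun l _ => (h j l).mul_right _
  · intro h k l
    rw [hcol]
    exact dvd_of_inner h (gen l) k

/-- Let the genus be `g ≥ 13`, let `R` be a commutative ring and `V` an `R`-module generated by
`d < 4 binom (g - 5) 2 = 2 (g - 5) (g - 6)` elements on which multiplication by `2 g - 2` is injective or surjective. Let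
`f` be an action on `V`, by `R`-linear automorphisms, of the subgroup of `Mod_g` generated by
Humphries' Dehn twists (all of `Mod_g`, by Humphries' theorem, which is not used). Then there is an
integer `m ≥ 0`, dividing every `n` with `n V = 0`, such that the kernel of `f` consists exactly of the classes acting on `π_1(S) / Γ` by
inner automorphisms, where `Γ` is the kernel of `π_1(S) → H_1(S; ℤ/m)`, a characteristic subgroup,
of finite index if `m ≠ 0` (as when `V` is finite). -/
theorem result {g d : ℕ} (hg : 13 ≤ g) (hd : d < 4 * (g - 5).choose 2) {R : Type u} {V : Type v}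
    [CommRing R] [AddCommGroup V] [Module R V]
    (hgen : ∃ s : Fin d → V, Submodule.span R (Set.range s) = ⊤)
    (hV : (∀ v : V, (2 * g - 2) • v = 0 → v = 0) ∨ ∀ v : V, ∃ w : V, (2 * g - 2) • w = v)
    (f : Humphries g →* (V ≃ₗ[R] V)) :
    ∃ m : ℕ, (∀ n : ℕ, (∀ v : V, n • v = 0) → m ∣ n) ∧
      (Level g m).Characteristic ∧ (m ≠ 0 → (Level g m).FiniteIndex) ∧
      ∀ (φ : orientedAut g) (hφ : classOf g φ ∈ Humphries g),
        f ⟨classOf g φ, hφ⟩ = 1 ↔ InnerMod (Level g m) (φ : MulAut (SurfaceGroup g)) := by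
  obtain ⟨s, hs⟩ := hgen
  have hs' : ∀ v, ∃ r : Fin d → R, v = ∑ i, r i • s i := by
    intro v
    have h1 : v ∈ Submodule.span R (Set.range s) := by rw [hs]; exact Submodule.mem_top
    obtain ⟨c, hc⟩ := (Submodule.mem_span_range_iff_exists_fun R).1 h1
    exact ⟨c, hc.symm⟩
  let ρ : HG g →* Module.End R V :=
    (LinearEquiv.automorphismGroup.toLinearMapMonoidHom (R := R) (M := V)).comp f
  have hρ : ∀ x v, ρ x v = f x v := fun x v => rfl
  obtain ⟨m, h1, h2⟩ : ∃ m : ℕ, (∀ n : ℕ, (∀ v : V, n • v = 0) → m ∣ n) ∧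
      ∀ x, ρ x = 1 ↔ ∀ k l, (m : ℤ) ∣ (HM g x - 1) k l := by
    have hd' : d < Pool.Agent.E8helper34.M4.bd g := by
      rw [Pool.Agent.E8helper34.M4.bd_eq hg]
      exact hd
    rcases hV with h | h
    · exact Pool.Agent.E8helper34.M4.ker_inj ρ (Pool.Agent.E8helper34.M4.four_lt hg) hd' h s hs'
    · exact Pool.Agent.E8helper34.M4.ker_div ρ (Pool.Agent.E8helper34.M4.four_lt hg) hd' h s hs'
  refine ⟨m, h1, level_char g m, level_fin g m, ?_⟩
  intro φ hφ
  rw [← matrix_iff]
  have h3 := h2 ⟨classOf g φ, hφ⟩
  rw [HM_class (x := (⟨classOf g φ, hφ⟩ : HG g)) (φ := φ) rfl] at h3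
  rw [← h3]
  constructor
  · intro h
    apply LinearMap.ext
    intro v
    rw [hρ, h]
    rfl
  · intro h
    apply LinearEquiv.ext
    intro v
    rw [← hρ, h]
    rfl

end Pool.Agent.Results.MP_59b15d_al.ActionsOnModulesH34
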