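import Pool.Agent.E8helper34.M4.Loc

set_option autoImplicit false

/-! All representations of `Mod_g` of dimension less than `Bound g` (for `g ≥ 13` this is
`4 * binom (g - 5) 2`) over fields whose characteristic does not divide `2 g - 2`, and their
kernels: the kernel in characteristic `p` is everything or the principal congruence subgroup of
level `p`. -/

namespace Pool.Agent.Results.MP_59b15d_al.LowDimensionalQuotientsH34

open Pool.Agent.H29R2.MG Pool.Agent.TH35.MG Pool.Agent.R665.MGR Module

universe u

/-- the elements of the surface group whose homology class is divisible by `p`: the kernel of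
`π_1(S) → H_1(S; ℤ/p)` -/
def Level (g p : ℕ) : Subgroup (SurfaceGroup g) where
  carrier := {x | ∀ j, (p : ℤ) ∣ homologyClass x j}
  one_mem' := by
    intro j
    have h : homologyClass (1 : SurfaceGroup g) = 0 := by
      unfold homologyClass
      rw [map_one]
      rfl
    rw [h]
    simp
  mul_mem' := by
    intro x y hx hy j
    have h : homologyClass (x * y) = homologyClass x + homologyClass y := by
      unfold homologyClass
      rw [map_mul]
      rfl
    rw [h]
    exact dvd_add (hx j) (hy j)
  inv_mem' := by
    intro x hx j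
    have h : homologyClass x⁻¹ = - homologyClass x := by
      unfold homologyClass
      rw [map_inv]
      rfl
    rw [h]
    exact (dvd_neg.2 (hx j))

/-- `φ` acts on `π_1(S) / Γ` as an inner automorphism -/
def InnerMod {g : ℕ} (Γ : Subgroup (SurfaceGroup g)) (φ : MulAut (SurfaceGroup g)) : Prop :=
  ∃ y : SurfaceGroup g, ∀ x : SurfaceGroup g, φ x * (y * x * y⁻¹)⁻¹ ∈ Γ

/-- The Humphries group acts on the vectors `w_j` as on the standard basis of `H_1(S; K)`: the map
sending the class `Σ n_j [gen j]` to `Σ n_j w_j` is equivariant. -/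
def ActsAsHomology {g d : ℕ} {K : Type u} [Field K]
    (f : Mod g →* Matrix.GeneralLinearGroup (Fin d) K)
    (w : Fin g ⊕ Fin g → (Fin d → K)) : Prop :=
  ∀ φ : orientedAut g, classOf g φ ∈ Humphries g → ∀ y : SurfaceGroup g,
    act f (classOf g φ) (comb w (homologyClass y)) = comb w (homologyClass (applyAut g φ y))

/-- The Humphries group fixes `v`. -/
def Fixes {g d : ℕ} {K : Type u} [Field K]
    (f : Mod g →* Matrix.GeneralLinearGroup (Fin d) K) (v : Fin d → K) : Prop :=
  ∀ x ∈ Humphries g, act f x v = v

/-- As a representation of the Humphries group, `K^d` is the direct sum of copies of `H_1(S; K)`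
and of trivial representations: `K^d` has a basis made of `a` families on which the group acts as
on the standard basis of `H_1(S; K)`, and `b` fixed vectors. -/
def Splits {g d : ℕ} {K : Type u} [Field K]
    (f : Mod g →* Matrix.GeneralLinearGroup (Fin d) K) (a b : ℕ) : Prop :=
  ∃ B : Basis ((Fin a × (Fin g ⊕ Fin g)) ⊕ Fin b) K (Fin d → K),
    (∀ i : Fin a, ActsAsHomology f (fun j => B (Sum.inl (i, j)))) ∧
      ∀ j : Fin b, Fixes f (B (Sum.inr j))

/-- The kernel of `f` on the Humphries group consists of the classes of the automorphisms acting on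
`π_1(S) / Γ` as inner automorphisms. -/
def KernelIsCongruence {g d : ℕ} {K : Type u} [Field K] (Γ : Subgroup (SurfaceGroup g))
    (f : Mod g →* Matrix.GeneralLinearGroup (Fin d) K) : Prop :=
  ∀ φ : orientedAut g, classOf g φ ∈ Humphries g →
    (f (classOf g φ) = 1 ↔ InnerMod Γ (φ : MulAut (SurfaceGroup g)))

theorem class_mul {g : ℕ} (x y : SurfaceGroup g) :
    homologyClass (x * y) = homologyClass x + homologyClass y := by
  unfold homologyClass
  rw [map_mul]
  rfl

theorem class_inv {g : ℕ} (x : SurfaceGroup g) : homologyClass x⁻¹ = - homologyClass x := by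
  unfold homologyClass
  rw [map_inv]
  rfl

theorem class_gen {g : ℕ} (i : Fin g ⊕ Fin g) :
    homologyClass (gen i : SurfaceGroup g) = Pi.single i 1 := by
  unfold homologyClass homologyHom gen
  rw [outHom_mk]
  simp [freeHom]

/-- the homology class modulo `p` -/
def modP (g p : ℕ) : SurfaceGroup g →* Multiplicative (Fin g ⊕ Fin g → ZMod p) where
  toFun x := Multiplicative.ofAdd (fun j => ((homologyClass x j : ℤ) : ZMod p))
  map_one' := by
    have h : homologyClass (1 : SurfaceGroup g) = 0 := by
      unfold homologyClass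
      rw [map_one]
      rfl
    rw [h]
    simp
    rfl
  map_mul' x y := by
    rw [class_mul]
    apply Multiplicative.toAdd.injective
    funext j
    simp

theorem level_eq (g p : ℕ) : Level g p = (modP g p).ker := by
  ext x
  rw [MonoidHom.mem_ker]
  constructor
  · intro h
    apply Multiplicative.toAdd.injective
    funext j
    have := (ZMod.intCast_zmod_eq_zero_iff_dvd (homologyClass x j) p).2 (by exact_mod_cast h j)
    simpa [modP] using this
  · intro h j
    have h1 := congrArg Multiplicative.toAdd h
    have h2 := congrFun h1 j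
    have h3 : ((homologyClass x j : ℤ) : ZMod p) = 0 := by simpa [modP] using h2
    exact_mod_cast (ZMod.intCast_zmod_eq_zero_iff_dvd (homologyClass x j) p).1 h3

/-- homomorphisms from the surface group to `ℤ^{2g}` are determined by the homology class -/
theorem linear {g : ℕ} (ψ : SurfaceGroup g →* Multiplicative (Fin g ⊕ Fin g → ℤ))
    (x : SurfaceGroup g) :
    Multiplicative.toAdd (ψ x) = ∑ j, homologyClass x j • Multiplicative.toAdd (ψ (gen j)) := by
  let L : SurfaceGroup g →* Multiplicative (Fin g ⊕ Fin g → ℤ) :=
    { toFun := fun x => Multiplicative.ofAdd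
        (∑ j, homologyClass x j • Multiplicative.toAdd (ψ (gen j)))
      map_one' := by
        have h : homologyClass (1 : SurfaceGroup g) = 0 := by
          unfold homologyClass
          rw [map_one]
          rfl
        rw [h]
        simp
      map_mul' := by
        intro x y
        rw [class_mul, ← ofAdd_add, ← Finset.sum_add_distrib]
        congr 1
        refine Finset.sum_congr rfl fun j _ => ?_
        rw [Pi.add_apply, add_smul] }
  have hL : ψ = L := by
    apply surface_ext
    intro i
    show ψ (gen i) = Multiplicative.ofAdd _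
    rw [class_gen, Finset.sum_eq_single i]
    · simp
    · intro j _ hj
      rw [Pi.single_eq_of_ne hj, zero_smul]
    · intro h
      exact absurd (Finset.mem_univ i) h
  have h := DFunLike.congr_fun hL x
  rw [h]
  rfl

theorem level_char (g p : ℕ) : (Level g p).Characteristic := by
  rw [Subgroup.characteristic_iff_le_comap]
  intro φ x hx
  rw [Subgroup.mem_comap]
  intro j
  have h := linear ((homologyHom g).comp φ.toMonoidHom) x
  have h1 : homologyClass (φ x) = ∑ i, homologyClass x i •
      Multiplicative.toAdd (((homologyHom g).comp φ.toMonoidHom) (gen i)) := h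
  show (p : ℤ) ∣ homologyClass (φ x) j
  rw [h1, Finset.sum_apply]
  refine Finset.dvd_sum fun i _ => ?_
  rw [Pi.smul_apply, smul_eq_mul]
  exact (hx i).mul_right _

theorem level_fin (g p : ℕ) [NeZero p] : (Level g p).FiniteIndex := by
  rw [level_eq]
  infer_instance

theorem dvd_of_inner {g p : ℕ} {φ : MulAut (SurfaceGroup g)} (h : InnerMod (Level g p) φ)
    (x : SurfaceGroup g) (j : Fin g ⊕ Fin g) :
    (p : ℤ) ∣ homologyClass (φ x) j - homologyClass x j := by
  obtain ⟨y, hy⟩ := h
  have h1 := hy x j
  rw [class_mul, class_inv, class_mul, class_mul, class_inv] at h1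
  have h2 : (homologyClass (φ x) + -(homologyClass y + homologyClass x + -homologyClass y)) j =
      homologyClass (φ x) j - homologyClass x j := by
    simp only [Pi.add_apply, Pi.neg_apply]
    ring
  rwa [h2] at h1

theorem inner_of_dvd {g p : ℕ} {φ : MulAut (SurfaceGroup g)}
    (h : ∀ (x : SurfaceGroup g) (j : Fin g ⊕ Fin g),
      (p : ℤ) ∣ homologyClass (φ x) j - homologyClass x j) : InnerMod (Level g p) φ := by
  refine ⟨1, fun x j => ?_⟩
  rw [class_mul, class_inv, one_mul, inv_one, mul_one, Pi.add_apply, Pi.neg_apply]
  exact h x j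

section
variable {g d : ℕ} {K : Type u} [Field K] {f : Mod g →* Matrix.GeneralLinearGroup (Fin d) K}

theorem eq_one_of_basis {ι : Type*} (B : Basis ι K (Fin d → K)) {x : Mod g}
    (h : ∀ i, act f x (B i) = B i) : f x = 1 := by
  have h1 : Matrix.toLinAlgEquiv' (f x : Matrix (Fin d) (Fin d) K) = LinearMap.id := by
    apply B.ext
    intro i
    rw [Matrix.toLinAlgEquiv'_apply]
    exact h i
  apply Units.ext
  apply Matrix.toLinAlgEquiv'.injective
  rw [h1, Units.val_one, map_one]
  rfl

theorem splits (hd : d < Pool.Agent.E8helper34.M4.bd g) (hK : ((2 * g - 2 : ℕ) : K) ≠ 0)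
    (f : Mod g →* Matrix.GeneralLinearGroup (Fin d) K) : ∃ a b, Splits f a b := by
  obtain ⟨a, b, B, h⟩ := Pool.Agent.E8helper34.M4.classification (g := g) (K := K)
    (V := Fin d → K) (by rw [Module.finrank_fin_fun]; exact hd) hK
    ((Pool.Agent.R665.MGR.rho f).comp (Humphries g).subtype)
  refine ⟨a, b, B, ?_, ?_⟩
  · intro i φ hφ y
    have e1 : ∀ l, Pool.Agent.R665.MGR.rho f (classOf g φ) (B (Sum.inl (i, l))) =
        ∑ k, Pool.Agent.E8helper34.M4.HR g K ⟨classOf g φ, hφ⟩ k l • B (Sum.inl (i, k)) :=
      fun l => (h ⟨classOf g φ, hφ⟩).1 i l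
    have e2 : ∀ k, (∑ l, (homologyClass y l : K) *
        Pool.Agent.E8helper34.M4.HR g K ⟨classOf g φ, hφ⟩ k l) =
        (homologyClass (applyAut g φ y) k : K) := by
      intro k
      have h1 := congrFun (Pool.Agent.E8helper34.M4.HM_vec (g := g) (x := ⟨classOf g φ, hφ⟩)
        (φ := φ) rfl y) k
      have h2 : homologyClass (applyAut g φ y) k = _ := h1.symm
      rw [h2, Matrix.mulVec, dotProduct, Int.cast_sum]
      refine Finset.sum_congr rfl fun l _ => ?_
      rw [Pool.Agent.E8helper34.M4.HR_apply, Int.cast_mul, mul_comm]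
    rw [← Pool.Agent.R665.MGR.rho_apply]
    unfold comb
    rw [map_sum]
    simp only [map_smul, e1, Finset.smul_sum, smul_smul]
    rw [Finset.sum_comm]
    refine Finset.sum_congr rfl fun k _ => ?_
    rw [← Finset.sum_smul, e2]
  · intro j x hx
    have h1 := (h ⟨x, hx⟩).2 j
    rw [← Pool.Agent.R665.MGR.rho_apply]
    exact h1

theorem comb_gen (w : Fin g ⊕ Fin g → (Fin d → K)) (k : Fin g ⊕ Fin g) :
    comb w (homologyClass (gen k : SurfaceGroup g)) = w k := by
  unfold comb
  rw [class_gen, Finset.sum_eq_single k]
  · simp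
  · intro j _ hj
    rw [Pi.single_eq_of_ne hj, Int.cast_zero, zero_smul]
  · intro h
    exact absurd (Finset.mem_univ k) h

/-- if no copy of `H_1` occurs, the Humphries group acts trivially -/
theorem trivial_of_zero {b : ℕ} (h : Splits f 0 b) : ∀ x ∈ Humphries g, f x = 1 := by
  obtain ⟨B, _, hB⟩ := h
  intro x hx
  apply eq_one_of_basis B
  rintro (⟨i, _⟩ | j)
  · exact i.elim0
  · exact hB j x hx

/-- if a copy of `H_1` occurs, the kernel is the group of level `p` -/
theorem kernel_of_pos {a b p : ℕ} [CharP K p] (ha : 0 < a) (h : Splits f a b) :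
    KernelIsCongruence (Level g p) f := by
  obtain ⟨B, hA, hB⟩ := h
  intro φ hφ
  constructor
  · intro h1
    apply inner_of_dvd
    intro x j
    have h2 := hA ⟨0, ha⟩ φ hφ x
    have h3 : act f (classOf g φ) (comb (fun k => B (Sum.inl (⟨0, ha⟩, k))) (homologyClass x)) =
        comb (fun k => B (Sum.inl (⟨0, ha⟩, k))) (homologyClass x) := by
      unfold act
      rw [h1, Units.val_one, Matrix.one_mulVec]
    rw [h3] at h2
    have hli : LinearIndependent K (fun k => B (Sum.inl ((⟨0, ha⟩ : Fin a), k))) :=
      B.linearIndependent.comp (fun k => Sum.inl ((⟨0, ha⟩ : Fin a), k)) (by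
        intro k k' hk
        simpa using hk)
    have h4 : ∑ k, ((homologyClass (applyAut g φ x) k : K) - (homologyClass x k : K)) •
        B (Sum.inl ((⟨0, ha⟩ : Fin a), k)) = 0 := by
      unfold comb at h2
      simp only [sub_smul]
      rw [Finset.sum_sub_distrib, h2, sub_self]
    have h5 := Fintype.linearIndependent_iff.1 hli _ h4 j
    rw [← CharP.intCast_eq_zero_iff K p]
    rw [Int.cast_sub]
    exact h5
  · intro h1
    have h2 := dvd_of_inner h1
    apply eq_one_of_basis B
    rintro (⟨i, k⟩ | j)
    · have h3 := hA i φ hφ (gen k)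
      rw [comb_gen] at h3
      rw [h3]
      rw [← comb_gen (fun k => B (Sum.inl (i, k))) k]
      unfold comb
      apply Finset.sum_congr rfl
      intro j _
      congr 1
      have h4 : (((homologyClass ((φ : MulAut (SurfaceGroup g)) (gen k)) j -
          homologyClass (gen k : SurfaceGroup g) j : ℤ)) : K) = 0 :=
        (CharP.intCast_eq_zero_iff K p _).2 (h2 (gen k) j)
      rw [Int.cast_sub, sub_eq_zero] at h4
      exact h4
    · exact hB j _ hφ

end

/-- The bound on the dimension, `4 binom (g - 5) 2 = 2 (g - 5) (g - 6)` if `g ≥ 13`. -/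
def Bound (g : ℕ) : ℕ := min (4 * (g - 5).choose 2) (2 ^ (g - 6))

/-- The classification of the representations of dimension less than `Bound g` over the fields in
which `2 g - 2` is not zero: sums of copies of `H_1(S; K)` and of trivial representations. -/
def Classification (g : ℕ) : Prop :=
  ∀ d : ℕ, d < Bound g → ∀ (K : Type u) [Field K], ((2 * g - 2 : ℕ) : K) ≠ 0 →
    ∀ f : Mod g →* Matrix.GeneralLinearGroup (Fin d) K, ∃ a b, Splits f a b

/-- The kernels in characteristic `p`, in the same dimensions: everything, or exactly the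
congruence subgroup given by `Γ`. -/
def Kernels (g p : ℕ) (Γ : Subgroup (SurfaceGroup g)) : Prop :=
  ∀ d : ℕ, d < Bound g → ∀ (K : Type u) [Field K], CharP K p →
    ∀ f : Mod g →* Matrix.GeneralLinearGroup (Fin d) K,
      (∀ x ∈ Humphries g, f x = 1) ∨ KernelIsCongruence Γ f

/-- Let `g` be the genus. `Mod_g` is generated by Humphries' Dehn twists (Humphries' theorem);
everything is stated for the subgroup they generate.
(1) For `d < Bound g` and every field `K` in which `2 g - 2` is not zero, every
homomorphism `Mod_g → GL_d(K)` is, on this subgroup, the direct sum of copies of `H_1(S; K)` and of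
trivial representations.
(2) For every prime `p` not dividing `2 g - 2`, the kernel `Γ` of `π_1(S) → H_1(S; ℤ/p)` is
characteristic and of finite index, and the kernel of every homomorphism `Mod_g → GL_d(K)` with
`d < Bound g` and `K` of characteristic `p` is everything or exactly the congruence subgroup
of the classes acting on `π_1(S) / Γ` by inner automorphisms. -/
theorem result (g : ℕ) : Classification.{u} g ∧
    ∀ p : ℕ, p.Prime → ¬ p ∣ 2 * g - 2 →
      (Level g p).Characteristic ∧ (Level g p).FiniteIndex ∧ Kernels.{u} g p (Level g p) := by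
  refine ⟨fun d hd K _ hK f => splits hd hK f, ?_⟩
  intro p hp hpg
  have : NeZero p := ⟨hp.ne_zero⟩
  refine ⟨level_char g p, level_fin g p, ?_⟩
  intro d hd K _ hK f
  have hK' : ((2 * g - 2 : ℕ) : K) ≠ 0 := by
    rw [Ne, CharP.cast_eq_zero_iff K p]
    exact hpg
  obtain ⟨a, b, h⟩ := splits hd hK' f
  rcases Nat.eq_zero_or_pos a with rfl | ha
  · exact Or.inl (trivial_of_zero h)
  · exact Or.inr (kernel_of_pos ha h)

end Pool.Agent.Results.MP_59b15d_al.LowDimensionalQuotientsH34
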