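import Pool.Agent.E8helper34.SD.App2
import Pool.Agent.Results.MP_59b15d_al.ActionsOnModulesH34

set_option autoImplicit false

/-! Quadratic homomorphisms from `Mod_g` to the units of an arbitrary ring, `2 g - 2` being no
zero divisor: the kernels are exactly congruence subgroups. -/

namespace Pool.Agent.Results.MP_59b15d_al.QuadraticActionsH34

open Pool.Agent.H29R2.MG Pool.Agent.TH35.MG Pool.Agent.R352.MG Pool.Agent.R665.MGR
  Pool.Agent.E8helper34.MR Pool.Agent.E8helper34.MC Pool.Agent.E8helper34.QA
  Pool.Agent.Results.MP_59b15d_al.ActionsOnModulesH34 Module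

universe u

/-- `(f(T') - 1) (f(T) - 1) = 0` for the twists `T` and `T'` about the disjoint curves `a_0` and
`a_1` -/
def Quadratic {g : ℕ} {A : Type u} [Ring A] (f : Humphries g →* Aˣ) : Prop :=
  ∀ T T' : Humphries g, IsTwistAt g 0 T → IsTwistAt g 1 T' →
    ((f T' : A) - 1) * ((f T : A) - 1) = 0

/-- Let the genus be `g ≥ 7`, let `A` be a ring, not necessarily commutative, in which
`(2 g - 2) a = 0` only for `a = 0`, and let `f` be a homomorphism to the units of `A` from the
subgroup of `Mod_g` generated by Humphries' Dehn twists (all of `Mod_g`, by Humphries' theorem,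
which is not used) with `(f(T') - 1) (f(T) - 1) = 0` for the twists `T`, `T'` about the disjoint
curves `a_0`, `a_1`. Then there is an integer `m ≥ 0`, dividing every `n` with `n A = 0`,
such that the kernel of `f` consists exactly of the classes acting on `π_1(S) / Γ` by inner
automorphisms, where `Γ` is the kernel of `π_1(S) → H_1(S; ℤ/m)`, a characteristic subgroup, of
finite index if `m ≠ 0` (as when `n A = 0` for some `n > 0`). -/
theorem result {g : ℕ} (hg : 7 ≤ g) {A : Type u} [Ring A]
    (hA : ∀ a : A, (2 * g - 2) • a = 0 → a = 0) (f : Humphries g →* Aˣ) (hf : Quadratic f) :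
    ∃ m : ℕ, (∀ n : ℕ, (∀ a : A, n • a = 0) → m ∣ n) ∧
      (Level g m).Characteristic ∧ (m ≠ 0 → (Level g m).FiniteIndex) ∧
      ∀ (φ : orientedAut g) (hφ : classOf g φ ∈ Humphries g),
        f ⟨classOf g φ, hφ⟩ = 1 ↔ InnerMod (Level g m) (φ : MulAut (SurfaceGroup g)) := by
  have t0 : IsTwistAt g 0 ((tM g 0 : HG g) : Mod g) := by
    rw [tM_zero (by omega), aM_coe (by omega) (by omega)]
    exact AA_twist (by omega)
  have t1 : IsTwistAt g 1 ((aM g 1 : HG g) : Mod g) := by
    rw [aM_coe (by omega) (by omega)]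
    exact AA_twist (by omega)
  have q : Quad ((Units.coeHom A).comp f) := by
    refine Pool.Agent.E8helper34.SD.quad_of_prod hg _ ?_
    rw [tM_zero (by omega)] at t0
    exact hf _ _ t0 t1
  obtain ⟨m, h1, h2⟩ := q.ker hA hg
  refine ⟨m, h1, level_char g m, level_fin g m, ?_⟩
  intro φ hφ
  rw [← matrix_iff]
  have h3 := h2 ⟨classOf g φ, hφ⟩
  rw [HM_class (x := (⟨classOf g φ, hφ⟩ : HG g)) (φ := φ) rfl] at h3
  rw [← h3]
  exact Units.val_eq_one.symm

end Pool.Agent.Results.MP_59b15d_al.QuadraticActionsH34
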