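import Pool.Agent.E8helper34.SD.App2
import Pool.Agent.Results.MP_59b15d_al.ActionsOnModulesH34

set_option autoImplicit false

/-! Actions of `Mod_g` on modules of any rank over commutative rings in which a Dehn twist moves
little: the kernels are exactly congruence subgroups. -/

namespace Pool.Agent.Results.MP_59b15d_al.SmallDisplacementH34

open Pool.Agent.H29R2.MG Pool.Agent.TH35.MG Pool.Agent.R352.MG Pool.Agent.R665.MGR
  Pool.Agent.E8helper34.MR Pool.Agent.E8helper34.MC Pool.Agent.E8helper34.QA
  Pool.Agent.E8helper34.SD Pool.Agent.Results.MP_59b15d_al.ActionsOnModulesH34 Module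

universe u v

/-- the displacement of `x`: the submodule `(f(x) - 1) V` -/
def Displacement {G : Type*} [Group G] {R : Type u} {V : Type v} [CommRing R] [AddCommGroup V]
    [Module R V] (f : G →* (V ≃ₗ[R] V)) (x : G) : Submodule R V :=
  LinearMap.range (((f x : V ≃ₗ[R] V) : V →ₗ[R] V) - LinearMap.id)

/-- Let the genus be `g ≥ 12`, let `R` be a commutative ring and `V` any `R`-module on which
multiplication by `2 g - 2` is injective or surjective. Let `f` be an action on `V`, by `R`-linear
automorphisms, of the subgroup of `Mod_g` generated by Humphries' Dehn twists (all of `Mod_g`, by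
Humphries' theorem, which is not used). Suppose that for the Dehn twist `T` about `a_0` the
submodule `(f(T) - 1) V` is generated by `d < 2 g - 2` elements. Then there is an integer `m ≥ 0`,
dividing every `n` with `n V = 0`, such that the kernel of `f` consists exactly of the classes
acting on `π_1(S) / Γ` by inner automorphisms, where `Γ` is the kernel of
`π_1(S) → H_1(S; ℤ/m)`, a characteristic subgroup, of finite index if `m ≠ 0` (as when `n V = 0`
for some `n > 0`). -/
theorem result {g d : ℕ} (hg : 12 ≤ g) (hd : d < 2 * g - 2) {R : Type u} {V : Type v}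
    [CommRing R] [AddCommGroup V] [Module R V]
    (hV : (∀ v : V, (2 * g - 2) • v = 0 → v = 0) ∨ ∀ v : V, ∃ w : V, (2 * g - 2) • w = v)
    (f : Humphries g →* (V ≃ₗ[R] V)) (T : Humphries g) (hT : IsTwistAt g 0 (T : Mod g))
    (hs : ∃ s : Fin d → V, Submodule.span R (Set.range s) = Displacement f T) :
    ∃ m : ℕ, (∀ n : ℕ, (∀ v : V, n • v = 0) → m ∣ n) ∧
      (Level g m).Characteristic ∧ (m ≠ 0 → (Level g m).FiniteIndex) ∧
      ∀ (φ : orientedAut g) (hφ : classOf g φ ∈ Humphries g),
        f ⟨classOf g φ, hφ⟩ = 1 ↔ InnerMod (Level g m) (φ : MulAut (SurfaceGroup g)) := by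
  obtain ⟨s, hs⟩ := hs
  let ρ : HG g →* Module.End R V :=
    (LinearEquiv.automorphismGroup.toLinearMapMonoidHom (R := R) (M := V)).comp f
  have hρ : ∀ x v, ρ x v = f x v := fun x v => rfl
  have eT : T = tM g 0 := by
    apply Subtype.ext
    rw [tM_zero (by omega), aM_coe (by omega) (by omega)]
    exact twist_eq (by omega) hT
  have hD : ∀ w, w ∈ Displacement f T ↔ ∃ v, ρ (tM g 0) v - v = w := by
    intro w
    rw [← eT]
    exact Iff.rfl
  have q : Quad ρ := by
    refine quad_disp hg ρ (d := d) (by omega) s ?_ ?_
    · intro i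
      have h1 : s i ∈ Displacement f T := by
        rw [← hs]
        exact Submodule.subset_span ⟨i, rfl⟩
      obtain ⟨v, hv⟩ := (hD _).1 h1
      exact ⟨v, hv.symm⟩
    · intro v
      have h1 : ρ (tM g 0) v - v ∈ Submodule.span R (Set.range s) := by
        rw [hs]
        exact (hD _).2 ⟨v, rfl⟩
      obtain ⟨c, hc⟩ := (Submodule.mem_span_range_iff_exists_fun R).1 h1
      exact ⟨c, hc.symm⟩
  have hA : ∀ a : Module.End R V, (2 * g - 2) • a = 0 → a = 0 := by
    intro a ha
    apply LinearMap.ext
    intro v
    rw [LinearMap.zero_apply]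
    rcases hV with h | h
    · apply h
      have := LinearMap.congr_fun ha v
      rwa [LinearMap.smul_apply, LinearMap.zero_apply] at this
    · obtain ⟨w, rfl⟩ := h v
      have := LinearMap.congr_fun ha w
      rw [LinearMap.smul_apply, LinearMap.zero_apply] at this
      rw [map_nsmul]
      exact this
  obtain ⟨m, h1, h2⟩ := q.ker hA (by omega)
  refine ⟨m, ?_, level_char g m, level_fin g m, ?_⟩
  · intro n hn
    apply h1
    intro a
    apply LinearMap.ext
    intro v
    exact hn _
  intro φ hφ
  rw [← matrix_iff]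
  have h3 := h2 ⟨classOf g φ, hφ⟩
  rw [HM_class (x := (⟨classOf g φ, hφ⟩ : HG g)) (φ := φ) rfl] at h3
  rw [← h3]
  constructor
  · intro h
    apply LinearMap.ext
    intro v
    rw [hρ, h]
    rfl
  · intro h
    apply LinearEquiv.ext
    intro v
    rw [← hρ, h]
    rfl

end Pool.Agent.Results.MP_59b15d_al.SmallDisplacementH34
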